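import Mathlib
import Pool.Agent.H6.PPLDefs
import Pool.Agent.H6.PPL

namespace Pool.Agent.Results.MP_f91ac8_co.Q1False

open Pool.Agent.H6.PPL in
/-- Some fixed point `u` of a 2-uniform morphism `σ` on two letters has a prefix palindromic length
that is not 2-regular. -/
theorem result : ∃ (σ : Bool → Bool × Bool) (u : ℕ → Bool),
    (∀ n, (u (2 * n), u (2 * n + 1)) = σ (u n)) ∧
    ¬ (Submodule.span ℤ {f : ℕ → ℤ | ∃ e r : ℕ, r < 2 ^ e ∧
      f = fun n : ℕ => ((PPL u (2 ^ e * n + r) : ℕ) : ℤ)}).FG := by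
  have hu : PD fun n => decide (padicValNat 2 (n + 1) % 2 = 1) := by
    intro n
    constructor
    · simp only [decide_eq_false_iff_not]
      rw [padicValNat.eq_zero_of_not_dvd (by omega)]
      simp
    · simp only
      rw [show 2 * n + 1 + 1 = 2 * (n + 1) by ring, padicValNat.mul (by norm_num) (by omega),
        padicValNat_self]
      rcases Nat.mod_two_eq_zero_or_one (padicValNat 2 (n + 1)) with h | h <;>
        simp [Nat.add_mod, h]
  generalize (fun n => decide (padicValNat 2 (n + 1) % 2 = 1)) = u at hu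
  refine ⟨fun b => (false, !b), u, fun n => by rw [(hu n).1, (hu n).2], not_fg hu fun n => ⟨?_, ?_⟩⟩
  · have hne : {k : ℕ | ∃ L : List (List Bool), L.length = k ∧ (∀ w ∈ L, w ≠ [] ∧ w.reverse = w) ∧
        L.flatten = List.ofFn (fun i : Fin n => u i.val)}.Nonempty := by
      refine ⟨_, (List.ofFn (fun i : Fin n => u i.val)).map fun a => [a], rfl, ?_, ?_⟩
      · intro w hw
        obtain ⟨a, -, rfl⟩ := List.mem_map.1 hw
        simp
      · generalize List.ofFn (fun i : Fin n => u i.val) = l
        induction l with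
        | nil => rfl
        | cons a l ih => simpa using ih
    obtain ⟨L, h1, h2, h3⟩ := Nat.sInf_mem hne
    exact ⟨L, h1, fun w hw => (h2 w hw).2, h3⟩
  · rintro k ⟨L, rfl, h2, h3⟩
    refine le_trans (Nat.sInf_le ⟨L.filter fun w => !w.isEmpty, rfl, fun w hw => ?_, ?_⟩)
      (List.length_filter_le _ _)
    · rw [List.mem_filter] at hw
      exact ⟨by simpa using hw.2, h2 w hw.1⟩
    · rw [← h3, List.flatten_filter_not_isEmpty]

end Pool.Agent.Results.MP_f91ac8_co.Q1False
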